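import Pool.Agent.CauchyInt.Disc

/-!
# MP_5e19db_an: limits of Cauchy-type integrals along a set approaching a boundary point

All definitions used in the statement are in `Pool/Agent/CauchyInt/Defs.lean`.

For every admissible `A`, `η`, `Q` the extension by continuity `K` of the operator exists and is
unique on `C(∂A, Q)` and `interior A`. For every admissible `S`:

* (a) `W f = Im (K f)` has a finite limit at `η` along `S` for every real `f` in `C(∂A, Q)` if and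
  only if `v^Q(η) + sup r⁻¹ u_r^Q(η) < ∞`, where `u_r^Q(η) = ∫_0^r ∑ Q dρ`;
* (b) `P f = Re (K f)` has a finite limit for every real `f` if and only if
  `U_∞^Q(η) + sup r⁻¹ V_r^Q(η) < ∞`, where `U` carries the factor `ρ⁻¹`;
* (c) `K f` has a limit for every `f` if and only if `U_∞^Q(η) + v^Q(η) < ∞`.

The printed form of (a), in which `U_r^Q(η)` carries the factor `ρ⁻¹`, fails: this is seen on the
closed unit disc with `η = 1`, `Q = 1` and `S` the radius ending at `1`.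
-/

namespace Pool.Agent.Results.MP_5e19db_an.CauchyLimits

open MeasureTheory Set Filter Topology ENNReal Pool.Agent.CauchyInt

theorem result :
    (∀ (A : Set ℂ) (η : ℂ) (Q : ℂ → ℝ), AdmissibleSet A → AdmissibleWeight A η Q →
      (∃ K : (ℂ → ℂ) → ℂ → ℂ, IsExtension A η Q K) ∧
      (∀ K K' : (ℂ → ℂ) → ℂ → ℂ, IsExtension A η Q K → IsExtension A η Q K' →
        ∀ f : ℂ → ℂ, MemCQ A η Q f → ∀ z ∈ interior A, K f z = K' f z) ∧
      ∀ (S : Set ℂ) (K : (ℂ → ℂ) → ℂ → ℂ), AdmissibleApproach A η S → IsExtension A η Q K →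
        ((∀ f : ℂ → ℝ, MemCQ A η Q (fun ζ => (f ζ : ℂ)) →
            ∃ L : ℝ, Tendsto (fun z => (K (fun ζ => (f ζ : ℂ)) z).im) (𝓝[S] η) (𝓝 L)) ↔
          (smallV A η Q + ⨆ (r : ℝ) (_ : 0 < r), (ENNReal.ofReal r)⁻¹ * smallU A η Q r) < ⊤) ∧
        ((∀ f : ℂ → ℝ, MemCQ A η Q (fun ζ => (f ζ : ℂ)) →
            ∃ L : ℝ, Tendsto (fun z => (K (fun ζ => (f ζ : ℂ)) z).re) (𝓝[S] η) (𝓝 L)) ↔
          (bigU A η Q (Ioi 0) +
            ⨆ (r : ℝ) (_ : 0 < r), (ENNReal.ofReal r)⁻¹ * bigV A η Q r) < ⊤) ∧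
        ((∀ f : ℂ → ℂ, MemCQ A η Q f → ∃ L : ℂ, Tendsto (fun z => K f z) (𝓝[S] η) (𝓝 L)) ↔
          (bigU A η Q (Ioi 0) + smallV A η Q) < ⊤)) ∧
    (∃ (A : Set ℂ) (η : ℂ) (Q : ℂ → ℝ) (S : Set ℂ) (K : (ℂ → ℂ) → ℂ → ℂ),
      AdmissibleSet A ∧ AdmissibleWeight A η Q ∧ AdmissibleApproach A η S ∧
      IsExtension A η Q K ∧
      (∀ f : ℂ → ℝ, MemCQ A η Q (fun ζ => (f ζ : ℂ)) →
        ∃ L : ℝ, Tendsto (fun z => (K (fun ζ => (f ζ : ℂ)) z).im) (𝓝[S] η) (𝓝 L)) ∧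
      ¬ (smallV A η Q +
        ⨆ (r : ℝ) (_ : 0 < r), (ENNReal.ofReal r)⁻¹ * bigU A η Q (Ioo 0 r)) < ⊤) := by
  constructor
  · intro A η Q hA hQ
    exact ⟨⟨K0 A η Q, isExtension_K0 hA hQ⟩,
      fun K K' hK hK' f hf z hz => extension_unique hA hQ hK hK' hf hz,
      fun S K hS hK => ⟨part_W hA hQ hS hK, part_P hA hQ hS hK, part_K hA hQ hS hK⟩⟩
  · refine ⟨disc, 1, fun _ => 1, radius, K0 disc 1 (fun _ => 1), admissible_disc, weight_disc,
      approach_disc, isExtension_K0 admissible_disc weight_disc, ?_, ?_⟩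
    · apply (part_W admissible_disc weight_disc approach_disc
        (isExtension_K0 admissible_disc weight_disc)).2
      rw [ENNReal.add_lt_top]
      refine ⟨smallV_disc, lt_of_le_of_lt (iSup₂_le fun r hr => smallU_disc r hr) ?_⟩
      exact ENNReal.ofNat_lt_top
    · rw [not_lt, top_le_iff, ENNReal.add_eq_top]
      right
      rw [eq_top_iff]
      calc (⊤ : ℝ≥0∞) = (ENNReal.ofReal 1)⁻¹ * bigU disc 1 (fun _ => 1) (Ioo 0 1) := by
            rw [bigU_disc, ENNReal.ofReal_one, inv_one, one_mul]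
        _ ≤ _ := le_iSup₂ (f := fun (r : ℝ) (_ : 0 < r) =>
            (ENNReal.ofReal r)⁻¹ * bigU disc 1 (fun _ => 1) (Ioo 0 r)) 1 one_pos

end Pool.Agent.Results.MP_5e19db_an.CauchyLimits
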